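import Mathlib
import Pool.Agent.H.MP_03af15_an.B

namespace Pool.Agent.Results.MP_03af15_an.Sharp
open Polynomial Finset Pool.Agent.H.MP_03af15_an

/-- `e_k(x) = x(x-1)...(x-k+1)/(a)_k` -/
noncomputable def e (a : ℝ) (k : ℕ) : ℝ[X] :=
  C (1 / (ascPochhammer ℝ k).eval a) * descPochhammer ℝ k

/-- the class `U_n` -/
def U (a : ℝ) (n : ℕ) : Set ℝ[X] :=
  {P | P.natDegree = n ∧ ∃ c : ℕ → ℝ, P = ∑ k ∈ range (n + 1), C (c k) * e a k ∧
    ∀ z : ℂ, ∑ k ∈ range (n + 1), (c k : ℂ) * z ^ k = 0 → z.im = 0 ∧ -1 ≤ z.re ∧ z.re ≤ 0}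

theorem e_zero (a : ℝ) (x : ℂ) : aeval x (e a 0) = 1 := by simp [e]

theorem e_succ (a : ℝ) (ha : 0 < a) (x : ℂ) (j : ℕ) :
    ((a : ℂ) + j) * aeval x (e a (j + 1)) = (x - j) * aeval x (e a j) := by
  have h1 : (((ascPochhammer ℝ j).eval a : ℝ) : ℂ) ≠ 0 :=
    Complex.ofReal_ne_zero.mpr (ascPochhammer_pos j a ha).ne'
  have h2 : (a : ℂ) + j ≠ 0 := by exact_mod_cast (by positivity : a + j ≠ 0)
  simp only [e, descPochhammer_succ_right, ascPochhammer_succ_eval, map_mul, aeval_C, map_sub,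
    aeval_X, map_natCast, Complex.coe_algebraMap]
  push_cast
  field_simp

theorem ev (a : ℝ) (n : ℕ) (c : ℕ → ℝ) (x : ℂ) (q : ℂ[X]) (hq : q.natDegree < n + 1)
    (hc : ∀ k < n + 1, q.coeff k = c k) :
    aeval x (∑ k ∈ range (n + 1), C (c k) * e a k) = pr q (fun k => aeval x (e a k)) := by
  rw [pr_range _ _ _ hq, map_sum]
  exact Finset.sum_congr rfl (fun k hk => by
    rw [hc k (Finset.mem_range.mp hk), map_mul, aeval_C, Complex.coe_algebraMap])

theorem result (a : ℝ) (ha : 0 < a) (n : ℕ) (hn : 1 ≤ n) :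
    IsGreatest {r : ℝ | ∃ P ∈ U a n, ∃ z : ℂ, aeval z P = 0 ∧ r = ‖z‖} (a + n - 1) ∧
    ∀ P ∈ U a n, ∀ z : ℂ, aeval z P = 0 → ‖z + a / 2‖ ≤ a / 2 + n - 1 := by
  have up : ∀ P ∈ U a n, ∀ z : ℂ, aeval z P = 0 → ‖z + a / 2‖ ≤ a / 2 + n - 1 := by
    rintro P ⟨_, c, rfl, hc⟩ z hz
    obtain ⟨q, hq⟩ : ∃ q : ℂ[X], q = ∑ k ∈ range (n + 1), C (c k : ℂ) * X ^ k := ⟨_, rfl⟩
    have q1 : ∀ k, q.coeff k = if k < n + 1 then (c k : ℂ) else 0 := fun k => by
      simp [hq, finsetSum_coeff, coeff_X_pow]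
    have q2 : q.natDegree ≤ n := by
      rw [natDegree_le_iff_coeff_eq_zero]
      intro k hk
      rw [q1, if_neg (by omega)]
    have q3 : ∀ z, q.eval z = 0 → z.im = 0 ∧ -1 ≤ z.re ∧ z.re ≤ 0 := fun z h =>
      hc z (by simpa [hq, eval_finsetSum] using h)
    have q0 : q ≠ 0 := by
      intro h
      have := (q3 1 (by simp [h])).2.2
      norm_num at this
    rw [ev a n c z q (by omega) (fun k hk => by rw [q1, if_pos hk])] at hz
    have := disc a ha q q0 q3 z _ (e_zero a z) (e_succ a ha z) hz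
    have : (q.natDegree : ℝ) ≤ n := by exact_mod_cast q2
    linarith
  have n1 : (1:ℝ) ≤ n := by exact_mod_cast hn
  refine ⟨⟨⟨∑ k ∈ range (n + 1), C (n.choose k : ℝ) * e a k, ⟨?_, fun k => n.choose k, rfl, ?_⟩,
    ((-(a + n - 1) : ℝ) : ℂ), ?_, ?_⟩, ?_⟩, up⟩
  · have d : ∀ k, (e a k).natDegree = k := fun k => by
      rw [e, natDegree_C_mul (one_div_ne_zero (ascPochhammer_pos k a ha).ne'),
        descPochhammer_natDegree]
    rw [Finset.sum_range_succ, Nat.choose_self, Nat.cast_one, C_1, one_mul,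
      natDegree_add_eq_right_of_natDegree_lt, d]
    rw [d]
    refine lt_of_le_of_lt (natDegree_sum_le_of_forall_le _ _ (n := n - 1) (fun k hk => ?_))
      (by omega)
    have := Finset.mem_range.mp hk
    exact (natDegree_C_mul_le _ _).trans (by rw [d]; omega)
  · intro z hz
    have : (z + 1) ^ n = 0 := by
      rw [add_pow, ← hz]
      exact Finset.sum_congr rfl (fun k _ => by push_cast; ring)
    rw [eq_neg_of_add_eq_zero_left (pow_eq_zero_iff (by omega) |>.mp this)]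
    simp
  · rw [ev a n (fun k => n.choose k) _ ((X + C 1) ^ n) (by
        rw [natDegree_pow, natDegree_X_add_C]; omega)
      (fun k _ => by rw [C_1, coeff_X_add_one_pow]; simp), pr_pow]
    obtain ⟨p, rfl⟩ : ∃ p, n = p + 1 := ⟨n - 1, by omega⟩
    have := rec_f a _ 1 (fun k => aeval ((-(a + (p + 1 : ℕ) - 1) : ℝ) : ℂ) (e a k))
      (e_succ a ha ((-(a + (p + 1 : ℕ) - 1) : ℝ) : ℂ)) p
    have h2 : (a : ℂ) + p ≠ 0 := by exact_mod_cast (by positivity : a + p ≠ 0)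
    refine mul_left_cancel₀ h2 (this.trans ?_)
    push_cast
    ring
  · rw [Complex.norm_real, norm_neg, Real.norm_of_nonneg (by linarith)]
  · rintro r ⟨P, hP, z, hz, rfl⟩
    have h1 := up P hP z hz
    have h2 := norm_sub_le (z + a / 2) ((a / 2 : ℝ) : ℂ)
    rw [Complex.norm_real, Real.norm_of_nonneg (by positivity)] at h2
    push_cast at h2
    rw [add_sub_cancel_right] at h2
    linarith

end Pool.Agent.Results.MP_03af15_an.Sharp
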